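import Pool.Agent.H56.E.Base
import Pool.Agent.H56.E.H56.G3.TS

/-!
# Theorem (G), MP_c59857_nt, section 3b: row SG, levels and counting
-/

set_option autoImplicit false

namespace Pool.Agent.H56.E.H8.G3

open Pool.Agent.H8.G3

open Finset Filter Pool.Agent.H6.N4D Pool.Agent.H78.GX.H6.N4D Pool.Agent.H93.EB Pool.Agent.H93.GS Pool.Agent.H56.G3 Pool.Agent.H56.E.H56.G3

/-! ### counting -/

lemma SG_markov (S : Par) (hN : 0 ≤ S.N) (f : ℤ → ℝ) (κ η B : ℝ) (hη : 0 ≤ η)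
    (h1 : ∀ t ∈ S.I, -η ≤ f t) (h2 : ∑ t ∈ S.I, f t ≤ B * S.N) :
    κ * S.cnt (fun t => κ < f t) ≤ (B + η) * S.N := by
  classical
  have e1 : κ * S.cnt (fun t => κ < f t) = ∑ t ∈ S.fl (fun t => κ < f t), κ := by
    rw [Finset.sum_const, nsmul_eq_mul]
    unfold Par.cnt
    ring
  have e2 : ∑ t ∈ S.fl (fun t => κ < f t), κ ≤ ∑ t ∈ S.fl (fun t => κ < f t), (f t + η) := by
    refine Finset.sum_le_sum fun t ht => ?_
    have := (Par.mem_fl.1 ht).2
    linarith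
  have e3 : ∑ t ∈ S.fl (fun t => κ < f t), (f t + η) ≤ ∑ t ∈ S.I, (f t + η) := by
    refine Finset.sum_le_sum_of_subset_of_nonneg (fun t ht => (Par.mem_fl.1 ht).1) ?_
    intro t ht _
    have := h1 t ht
    linarith
  have e4 : ∑ t ∈ S.I, (f t + η) = ∑ t ∈ S.I, f t + η * S.N := by
    rw [Finset.sum_add_distrib, Finset.sum_const, nsmul_eq_mul, Par.card_I hN]
    ring
  rw [e1]
  linarith

lemma SG_union (S : Par) (m : ℕ) (E : ℕ → ℤ → Prop) (B : ℝ) (h : ∀ i < m, S.cnt (E i) ≤ B) :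
    S.cnt (fun t => ∃ i < m, E i t) ≤ m * B := by
  induction m with
  | zero =>
    have : S.cnt (fun t => ∃ i < 0, E i t) = 0 := by
      unfold Par.cnt
      rw [Nat.cast_eq_zero, Finset.card_eq_zero]
      rw [Finset.eq_empty_iff_forall_notMem]
      intro t ht
      obtain ⟨i, hi, _⟩ := (Par.mem_fl.1 ht).2
      omega
    rw [this]
    simp
  | succ m ih =>
    have h1 : S.cnt (fun t => ∃ i < m + 1, E i t) ≤
        S.cnt (fun t => ∃ i < m, E i t) + S.cnt (E m) := by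
      refine Par.cnt_le_add fun t _ => ?_
      rintro ⟨i, hi, hE⟩
      rcases Nat.lt_succ_iff_lt_or_eq.1 hi with h | h
      · exact Or.inl ⟨i, h, hE⟩
      · exact Or.inr (h ▸ hE)
    have h2 := ih fun i hi => h i (by omega)
    have h3 := h m (by omega)
    push_cast
    linarith

lemma SG_share (S : Par) (hN : 0 ≤ S.N) (f : ℤ → ℝ) (c : ℝ) (hc : 0 < c)
    (h1 : ∀ t ∈ S.I, f t ≤ 2) (h2 : c / 6 * S.N ≤ ∑ t ∈ S.I, f t) :
    c / 20 * S.N ≤ S.cnt (fun t => c / 20 ≤ f t) := by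
  classical
  have e1 : ∑ t ∈ S.I, f t ≤ ∑ t ∈ S.I, ((if c / 20 ≤ f t then 2 else 0) + c / 20) := by
    refine Finset.sum_le_sum fun t ht => ?_
    have := h1 t ht
    split_ifs with h
    · linarith
    · push Not at h
      linarith
  have e2 : ∑ t ∈ S.I, ((if c / 20 ≤ f t then (2 : ℝ) else 0) + c / 20) =
      2 * S.cnt (fun t => c / 20 ≤ f t) + c / 20 * S.N := by
    rw [Finset.sum_add_distrib, Finset.sum_const, nsmul_eq_mul, Par.card_I hN,
      ← Finset.sum_filter, Finset.sum_const, nsmul_eq_mul]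
    have e3 : S.fl (fun t => c / 20 ≤ f t) = S.I.filter (fun t => c / 20 ≤ f t) := by
      ext t
      rw [Par.mem_fl, Finset.mem_filter]
    unfold Par.cnt
    rw [e3]
    ring
  rw [e2] at e1
  have : 0 ≤ c * S.N := by positivity
  linarith

/-! ### linearity -/

lemma SG_lg_sub (X : ℕ) (f g : ℕ → ℝ) : lg X (fun n => f n - g n) = lg X f - lg X g := by
  unfold lg
  rw [← Finset.sum_sub_distrib]
  refine Finset.sum_congr rfl fun n _ => ?_
  ring

lemma SG_lg_add (X : ℕ) (f g : ℕ → ℝ) : lg X (fun n => f n + g n) = lg X f + lg X g := by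
  unfold lg
  rw [← Finset.sum_add_distrib]
  refine Finset.sum_congr rfl fun n _ => ?_
  ring

lemma SG_lg_mul (X : ℕ) (c : ℝ) (f : ℕ → ℝ) : lg X (fun n => c * f n) = c * lg X f := by
  unfold lg
  rw [Finset.mul_sum]
  refine Finset.sum_congr rfl fun n _ => ?_
  ring

lemma SG_lg_sum {ι : Type} (X : ℕ) (s : Finset ι) (f : ι → ℕ → ℝ) :
    lg X (fun n => ∑ i ∈ s, f i n) = ∑ i ∈ s, lg X (f i) := by
  unfold lg
  rw [Finset.sum_comm]
  refine Finset.sum_congr rfl fun n _ => ?_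
  rw [Finset.sum_div]

lemma SG_sS_sub (S : Par) (f g : ℕ → ℝ) : sS S (fun n => f n - g n) = sS S f - sS S g := by
  unfold sS
  rw [← Finset.sum_sub_distrib]
  refine Finset.sum_congr rfl fun n _ => ?_
  ring

lemma SG_sS_mul (S : Par) (c : ℝ) (f : ℕ → ℝ) : sS S (fun n => c * f n) = c * sS S f := by
  unfold sS
  rw [Finset.mul_sum]
  refine Finset.sum_congr rfl fun n _ => ?_
  ring

lemma SG_sS_mono (S : Par) (f g : ℕ → ℝ) (h : ∀ n, f n ≤ g n) : sS S f ≤ sS S g := by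
  unfold sS
  refine Finset.sum_le_sum fun n _ => ?_
  exact div_le_div_of_nonneg_right (h n) (Nat.cast_nonneg _)

lemma SG_sl_mul (N n : ℕ) (c : ℝ) (f : ℕ → ℝ) : sl N n (fun v => c * f v) = c * sl N n f := by
  unfold sl
  rw [← Finset.mul_sum]
  ring

lemma SG_sl_nonneg (N n : ℕ) (f : ℕ → ℝ) (h : ∀ v, 0 ≤ f v) : 0 ≤ sl N n f := by
  unfold sl
  exact div_nonneg (Finset.sum_nonneg fun _ _ => h _) (Nat.cast_nonneg _)

end Pool.Agent.H56.E.H8.G3
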